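import Mathlib
import Pool.Agent.H44.Fatou.Basic

set_option autoImplicit false

open Filter Topology Polynomial OnePoint
open Pool.Agent.H44.Fatou

namespace Pool.Agent.H76.Fatou

/-- the Riemann sphere -/
abbrev S := OnePoint ℂ

/-- the complex coordinate of a point of the sphere (`0` at infinity) -/
noncomputable def toC (x : S) : ℂ := x.elim 0 (fun z => z)

@[simp] theorem toC_coe (z : ℂ) : toC (z : S) = z := rfl
@[simp] theorem toC_infty : toC (∞ : S) = 0 := rfl

theorem toC_pt (a b : ℂ) : toC (pt a b) = a / b := by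
  unfold pt
  by_cases h : b = 0
  · simp [h]
  · rw [if_neg h, toC_coe]

theorem coe_toC {x : S} (hx : x ≠ ∞) : ((toC x : ℂ) : S) = x := by
  induction x using OnePoint.rec with
  | infty => exact absurd rfl hx
  | coe z => rfl

@[simp] theorem pt_one (z : ℂ) : pt z 1 = (z : S) := by
  unfold pt; rw [if_neg one_ne_zero, div_one]

@[simp] theorem pt_zero (z : ℂ) : pt z 0 = (∞ : S) := by
  unfold pt; rw [if_pos rfl]

theorem pt_ne_infty {a b : ℂ} (h : pt a b ≠ ∞) : b ≠ 0 := by
  intro hb; apply h; rw [hb, pt_zero]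

theorem pt_eq_infty {a b : ℂ} (h : pt a b = ∞) : b = 0 := by
  by_contra hb
  unfold pt at h
  rw [if_neg hb] at h
  exact coe_ne_infty _ h

/-- every point of the sphere has homogeneous coordinates -/
theorem exists_pt (x : S) : ∃ v : ℂ × ℂ, v ≠ 0 ∧ pt v.1 v.2 = x := by
  induction x using OnePoint.rec with
  | infty => exact ⟨(1, 0), by simp, by simp⟩
  | coe z => exact ⟨(z, 1), by simp, by simp⟩

theorem ne_zero_iff {v : ℂ × ℂ} : v ≠ 0 ↔ v.1 ≠ 0 ∨ v.2 ≠ 0 := by
  rw [Ne, Prod.ext_iff]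
  simp only [Prod.fst_zero, Prod.snd_zero]
  tauto

/-- maps of the sphere which have a holomorphic lift to `ℂ²` minus the origin -/
def Lift (F : S → S) : Prop :=
  ∃ p q : ℂ × ℂ → ℂ, Differentiable ℂ p ∧ Differentiable ℂ q ∧
    (∀ v : ℂ × ℂ, v ≠ 0 → p v ≠ 0 ∨ q v ≠ 0) ∧
    ∀ v : ℂ × ℂ, v ≠ 0 → F (pt v.1 v.2) = pt (p v) (q v)

theorem Lift.id : Lift (fun x => x) :=
  ⟨Prod.fst, Prod.snd, differentiable_fst, differentiable_snd,
    fun _ hv => ne_zero_iff.1 hv, fun _ _ => rfl⟩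

theorem Lift.comp {F G : S → S} (hF : Lift F) (hG : Lift G) : Lift (F ∘ G) := by
  obtain ⟨p, q, hp, hq, h1, h2⟩ := hF
  obtain ⟨p', q', hp', hq', h1', h2'⟩ := hG
  refine ⟨fun v => p (p' v, q' v), fun v => q (p' v, q' v), hp.comp (hp'.prodMk hq'),
    hq.comp (hp'.prodMk hq'), ?_, ?_⟩
  · intro v hv
    exact h1 _ (ne_zero_iff.2 (h1' v hv))
  · intro v hv
    rw [Function.comp_apply, h2' v hv]
    exact h2 (p' v, q' v) (ne_zero_iff.2 (h1' v hv))

/-- local continuous choice of homogeneous coordinates -/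
theorem exists_section (x0 : S) : ∃ σ : S → ℂ × ℂ, ContinuousAt σ x0 ∧ σ x0 ≠ 0 ∧
    ∀ᶠ x in 𝓝 x0, pt (σ x).1 (σ x).2 = x := by
  induction x0 using OnePoint.rec with
  | coe z =>
    refine ⟨fun x => (toC x, 1), ?_, by simp, ?_⟩
    · apply ContinuousAt.prodMk
      · rw [OnePoint.continuousAt_coe]
        exact continuousAt_id
      · exact continuousAt_const
    · rw [OnePoint.nhds_coe_eq, eventually_map]
      exact Eventually.of_forall fun w => by simp
  | infty =>
    set io : S → ℂ := fun z => z.elim 0 (fun z => z⁻¹) with hio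
    refine ⟨fun x => (1, io x), ?_, by simp, ?_⟩
    · apply ContinuousAt.prodMk
      · exact continuousAt_const
      · rw [continuousAt_infty', coclosedCompact_eq_cocompact, ← Metric.cobounded_eq_cocompact]
        exact tendsto_inv₀_cobounded
    · rw [nhds_infty_eq, eventually_sup, eventually_map]
      refine ⟨?_, ?_⟩
      · rw [coclosedCompact_eq_cocompact, ← Metric.cobounded_eq_cocompact]
        have h1 := (tendsto_inv₀_cobounded' (α := ℂ)).eventually (self_mem_nhdsWithin)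
        filter_upwards [h1] with z hz
        have hz' : z⁻¹ ≠ 0 := hz
        show pt 1 z⁻¹ = (z : S)
        unfold pt
        rw [if_neg hz', one_div, inv_inv]
      · show ∀ᶠ x in pure ∞, _
        rw [eventually_pure]
        simp [hio]

/-- continuity through homogeneous coordinates -/
theorem continuousAt_of_lift {T : Type*} [TopologicalSpace T] {Φ : T → S → S} {t0 : T} {x0 : S}
    {p q : T → ℂ × ℂ → ℂ}
    (hp : Continuous (fun a : T × (ℂ × ℂ) => p a.1 a.2))
    (hq : Continuous (fun a : T × (ℂ × ℂ) => q a.1 a.2))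
    (hne : ∀ v : ℂ × ℂ, v ≠ 0 → p t0 v ≠ 0 ∨ q t0 v ≠ 0)
    (h : ∀ t v, v ≠ 0 → Φ t (pt v.1 v.2) = pt (p t v) (q t v)) :
    ContinuousAt (fun a : T × S => Φ a.1 a.2) (t0, x0) := by
  obtain ⟨σ, hσ, hσ0, hσ1⟩ := exists_section x0
  have hx0 : pt (σ x0).1 (σ x0).2 = x0 := hσ1.self_of_nhds
  have e1 : Tendsto (fun a : T × S => p a.1 (σ a.2)) (𝓝 (t0, x0)) (𝓝 (p t0 (σ x0))) := by
    have h1 : Tendsto (fun a : T × S => (a.1, σ a.2)) (𝓝 (t0, x0)) (𝓝 (t0, σ x0)) := by
      rw [nhds_prod_eq, nhds_prod_eq]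
      exact tendsto_id.prodMap hσ
    exact (hp.tendsto (t0, σ x0)).comp h1
  have e2 : Tendsto (fun a : T × S => q a.1 (σ a.2)) (𝓝 (t0, x0)) (𝓝 (q t0 (σ x0))) := by
    have h1 : Tendsto (fun a : T × S => (a.1, σ a.2)) (𝓝 (t0, x0)) (𝓝 (t0, σ x0)) := by
      rw [nhds_prod_eq, nhds_prod_eq]
      exact tendsto_id.prodMap hσ
    exact (hq.tendsto (t0, σ x0)).comp h1
  have e3 := tendsto_pt e1 e2 (hne _ hσ0)
  show Tendsto _ _ _
  have hΦ : Φ t0 x0 = pt (p t0 (σ x0)) (q t0 (σ x0)) := by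
    conv_lhs => rw [← hx0]
    exact h t0 _ hσ0
  simp only [hΦ]
  apply e3.congr'
  have e4 : ∀ᶠ a : T × S in 𝓝 (t0, x0), σ a.2 ≠ 0 ∧ pt (σ a.2).1 (σ a.2).2 = a.2 := by
    have : ∀ᶠ x in 𝓝 x0, σ x ≠ 0 ∧ pt (σ x).1 (σ x).2 = x :=
      (hσ.eventually_ne hσ0).and hσ1
    rw [nhds_prod_eq]
    exact this.prod_inr _
  filter_upwards [e4] with a ha
  conv_rhs => rw [← ha.2]
  exact (h a.1 _ ha.1).symm

theorem Lift.continuous {F : S → S} (hF : Lift F) : Continuous F := by
  obtain ⟨p, q, hp, hq, h1, h2⟩ := hF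
  rw [continuous_iff_continuousAt]
  intro x
  have := continuousAt_of_lift (T := Unit) (Φ := fun _ => F) (t0 := ()) (x0 := x)
    (p := fun _ => p) (q := fun _ => q) (hp.continuous.comp continuous_snd)
    (hq.continuous.comp continuous_snd) h1 (fun _ v hv => h2 v hv)
  have h3 : ContinuousAt (fun y : S => ((), y)) x := by fun_prop
  exact ContinuousAt.comp (f := fun y : S => ((), y)) (g := fun a : Unit × S => F a.2) this h3

/-- the homogeneous form of degree `d` of a polynomial -/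
noncomputable def hom (P : Polynomial ℂ) (d : ℕ) (v : ℂ × ℂ) : ℂ :=
  ∑ i ∈ Finset.range (d + 1), P.coeff i * (v.1 ^ i * v.2 ^ (d - i))

theorem hom_differentiable (P : Polynomial ℂ) (d : ℕ) : Differentiable ℂ (hom P d) := by
  unfold hom
  fun_prop

theorem hom_eq {P : Polynomial ℂ} {d : ℕ} (hP : P.natDegree ≤ d) {v : ℂ × ℂ} (hv : v.2 ≠ 0) :
    hom P d v = P.eval (v.1 / v.2) * v.2 ^ d := by
  unfold hom
  rw [Polynomial.eval_eq_sum_range' (Nat.lt_succ_of_le hP), Finset.sum_mul]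
  apply Finset.sum_congr rfl
  intro i hi
  rw [Finset.mem_range] at hi
  have h1 : v.2 ^ d = v.2 ^ i * v.2 ^ (d - i) := by
    rw [← pow_add]; congr 1; omega
  rw [h1, div_pow]
  field_simp

theorem hom_zero {P : Polynomial ℂ} {d : ℕ} {v : ℂ × ℂ} (hv : v.2 = 0) :
    hom P d v = P.coeff d * v.1 ^ d := by
  unfold hom
  rw [Finset.sum_eq_single d]
  · simp
  · intro i hi hid
    rw [Finset.mem_range] at hi
    rw [hv, zero_pow (by omega)]; ring
  · intro h; simp at h

theorem lift_rat {P Q : Polynomial ℂ} (h : IsCoprime P Q) : Lift (rat P Q) := by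
  refine ⟨hom P (dg P Q), hom Q (dg P Q), hom_differentiable _ _, hom_differentiable _ _, ?_, ?_⟩
  · intro v hv
    by_cases h2 : v.2 = 0
    · have h1 : v.1 ≠ 0 := by
        rcases ne_zero_iff.1 hv with h1 | h1
        · exact h1
        · exact absurd h2 h1
      rw [hom_zero h2, hom_zero h2]
      rcases coeff_dg h with h3 | h3
      · left; exact mul_ne_zero h3 (pow_ne_zero _ h1)
      · right; exact mul_ne_zero h3 (pow_ne_zero _ h1)
    · rw [hom_eq (d := dg P Q) (le_max_left _ _) h2, hom_eq (d := dg P Q) (le_max_right _ _) h2]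
      rcases coprime_eval h (v.1 / v.2) with h3 | h3
      · left; exact mul_ne_zero h3 (pow_ne_zero _ h2)
      · right; exact mul_ne_zero h3 (pow_ne_zero _ h2)
  · intro v hv
    by_cases h2 : v.2 = 0
    · have h1 : v.1 ≠ 0 := by
        rcases ne_zero_iff.1 hv with h1 | h1
        · exact h1
        · exact absurd h2 h1
      rw [hom_zero h2, hom_zero h2, h2, pt_zero, rat_infty, pt_smul (pow_ne_zero _ h1)]
    · rw [hom_eq (d := dg P Q) (le_max_left _ _) h2, hom_eq (d := dg P Q) (le_max_right _ _) h2, pt_smul (pow_ne_zero _ h2)]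
      have : pt v.1 v.2 = ((v.1 / v.2 : ℂ) : S) := by unfold pt; rw [if_neg h2]
      rw [this, rat_coe]

/-- Moebius maps -/
noncomputable def mob (a b c d : ℂ) : S → S :=
  fun z => z.elim (pt a c) (fun z => pt (a * z + b) (c * z + d))

theorem mob_pt {a b c d : ℂ} {v : ℂ × ℂ} (hv : v ≠ 0) :
    mob a b c d (pt v.1 v.2) = pt (a * v.1 + b * v.2) (c * v.1 + d * v.2) := by
  by_cases h2 : v.2 = 0
  · have h1 : v.1 ≠ 0 := by
      rcases ne_zero_iff.1 hv with h1 | h1
      · exact h1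
      · exact absurd h2 h1
    rw [h2, pt_zero]
    show pt a c = _
    rw [mul_zero, mul_zero, add_zero, add_zero, pt_smul h1]
  · have : pt v.1 v.2 = ((v.1 / v.2 : ℂ) : S) := by unfold pt; rw [if_neg h2]
    rw [this]
    show pt (a * (v.1 / v.2) + b) (c * (v.1 / v.2) + d) = _
    rw [← pt_smul (x := a * (v.1 / v.2) + b) (y := c * (v.1 / v.2) + d) h2]
    congr 1 <;> field_simp

theorem mob_coe (a b c d z : ℂ) : mob a b c d (z : S) = pt (a * z + b) (c * z + d) := rfl

theorem det_ne {a b c d : ℂ} (h : a * d - b * c ≠ 0) {v : ℂ × ℂ} (hv : v ≠ 0) :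
    a * v.1 + b * v.2 ≠ 0 ∨ c * v.1 + d * v.2 ≠ 0 := by
  by_contra hcon
  push Not at hcon
  obtain ⟨h1, h2⟩ := hcon
  have e1 : (a * d - b * c) * v.1 = 0 := by linear_combination d * h1 - b * h2
  have e2 : (a * d - b * c) * v.2 = 0 := by linear_combination a * h2 - c * h1
  rcases ne_zero_iff.1 hv with h3 | h3
  · exact (mul_ne_zero h h3) e1
  · exact (mul_ne_zero h h3) e2

theorem lift_mob {a b c d : ℂ} (h : a * d - b * c ≠ 0) : Lift (mob a b c d) :=
  ⟨fun v => a * v.1 + b * v.2, fun v => c * v.1 + d * v.2, by fun_prop, by fun_prop,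
    fun _ hv => det_ne h hv, fun _ hv => mob_pt hv⟩

theorem mob_mob {a b c d a' b' c' d' : ℂ} (h' : a' * d' - b' * c' ≠ 0) (x : S) :
    mob a b c d (mob a' b' c' d' x)
      = mob (a * a' + b * c') (a * b' + b * d') (c * a' + d * c') (c * b' + d * d') x := by
  obtain ⟨v, hv, rfl⟩ := exists_pt x
  rw [mob_pt hv, mob_pt hv]
  have := mob_pt (a := a) (b := b) (c := c) (d := d)
    (v := (a' * v.1 + b' * v.2, c' * v.1 + d' * v.2)) (ne_zero_iff.2 (det_ne h' hv))
  rw [this]
  congr 1 <;> ring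

theorem mob_inv {a b c d : ℂ} (h : a * d - b * c ≠ 0) (x : S) :
    mob d (-b) (-c) a (mob a b c d x) = x := by
  rw [mob_mob h]
  obtain ⟨v, hv, rfl⟩ := exists_pt x
  rw [mob_pt hv]
  rw [← pt_smul (x := v.1) (y := v.2) h]
  congr 1 <;> ring

theorem mob_inv' {a b c d : ℂ} (h : a * d - b * c ≠ 0) (x : S) :
    mob a b c d (mob d (-b) (-c) a x) = x := by
  have h' : d * a - (-b) * (-c) ≠ 0 := by intro h0; apply h; linear_combination h0
  have := mob_inv h' x
  rwa [neg_neg, neg_neg] at this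

theorem mob_injective {a b c d : ℂ} (h : a * d - b * c ≠ 0) :
    Function.Injective (mob a b c d) := fun x y hxy => by
  rw [← mob_inv h x, hxy, mob_inv h y]

/-- a Moebius map as a homeomorphism -/
noncomputable def mobH {a b c d : ℂ} (h : a * d - b * c ≠ 0) : S ≃ₜ S where
  toFun := mob a b c d
  invFun := mob d (-b) (-c) a
  left_inv := mob_inv h
  right_inv := mob_inv' h
  continuous_toFun := (lift_mob h).continuous
  continuous_invFun := by
    have h' : d * a - (-b) * (-c) ≠ 0 := by intro h0; apply h; linear_combination h0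
    exact (lift_mob h').continuous

theorem mobH_apply {a b c d : ℂ} (h : a * d - b * c ≠ 0) (x : S) : mobH h x = mob a b c d x := rfl

theorem lift_mobH {a b c d : ℂ} (h : a * d - b * c ≠ 0) : Lift (mobH h) := lift_mob h

theorem lift_mobH_symm {a b c d : ℂ} (h : a * d - b * c ≠ 0) : Lift (mobH h).symm := by
  have h' : d * a - (-b) * (-c) ≠ 0 := by intro h0; apply h; linear_combination h0
  exact lift_mob h'

/-- every point can be moved to infinity -/
theorem exists_mob_infty (x : S) : ∃ h : S ≃ₜ S, Lift h ∧ Lift h.symm ∧ h x = ∞ := by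
  obtain ⟨v, hv, rfl⟩ := exists_pt x
  by_cases h2 : v.2 = 0
  · have hd : (1 : ℂ) * 1 - 0 * 0 ≠ 0 := by norm_num
    refine ⟨mobH hd, lift_mobH hd, lift_mobH_symm hd, ?_⟩
    rw [mobH_apply, mob_pt hv, h2]; simp
  · have hd : (0 : ℂ) * (-v.1) - 1 * v.2 ≠ 0 := by
      intro h0; apply h2; linear_combination -h0
    refine ⟨mobH hd, lift_mobH hd, lift_mobH_symm hd, ?_⟩
    rw [mobH_apply, mob_pt hv]
    have : v.2 * v.1 + -v.1 * v.2 = 0 := by ring
    rw [this, pt_zero]

/-- every point can be moved to zero -/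
theorem exists_mob_zero (x : S) : ∃ h : S ≃ₜ S, Lift h ∧ Lift h.symm ∧ h x = ((0 : ℂ) : S) := by
  obtain ⟨h, h1, h2, h3⟩ := exists_mob_infty x
  have hd : (0 : ℂ) * 0 - 1 * 1 ≠ 0 := by norm_num
  refine ⟨h.trans (mobH hd), (lift_mobH hd).comp h1, h2.comp (lift_mobH_symm hd), ?_⟩
  rw [Homeomorph.trans_apply, h3, mobH_apply]
  show pt 0 1 = _
  rw [pt_one]

/-- the coordinate expression of a lifted map is holomorphic where finite -/
theorem Lift.differentiableAt {F : S → S} (hF : Lift F) {z : ℂ} (hz : F (z : S) ≠ ∞) :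
    DifferentiableAt ℂ (fun w : ℂ => toC (F (w : S))) z := by
  obtain ⟨p, q, hp, hq, h1, h2⟩ := hF
  have e : ∀ w : ℂ, F (w : S) = pt (p (w, 1)) (q (w, 1)) := by
    intro w
    have := h2 (w, 1) (by simp)
    rwa [pt_one] at this
  have e2 : (fun w : ℂ => toC (F (w : S))) = fun w => p (w, 1) / q (w, 1) := by
    funext w; rw [e, toC_pt]
  rw [e2]
  rw [e] at hz
  have hq0 := pt_ne_infty hz
  apply DifferentiableAt.div
  · exact (hp (z, 1)).comp z (by fun_prop)
  · exact (hq (z, 1)).comp z (by fun_prop)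
  · exact hq0

end Pool.Agent.H76.Fatou
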