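import Mathlib

set_option autoImplicit false
set_option linter.unusedSectionVars false

open Filter Topology

namespace Pool.Agent.H76.Fatou

section

variable {Λ X : Type*}

/-- apply the letters `ω s, …, ω (s + L - 1)` -/
def run (g : Λ → X → X) (ω : ℕ → Λ) (s : ℕ) : ℕ → X → X
  | 0 => fun x => x
  | L + 1 => fun x => g (ω (s + L)) (run g ω s L x)

theorem run_add (g : Λ → X → X) (ω : ℕ → Λ) (s a b : ℕ) (x : X) :
    run g ω s (a + b) x = run g ω (s + a) b (run g ω s a x) := by
  induction b with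
  | zero => rfl
  | succ b ih =>
    show g (ω (s + (a + b))) (run g ω s (a + b) x) = g (ω (s + a + b)) _
    rw [ih, Nat.add_assoc]

theorem run_shift (g : Λ → X → X) (ω : ℕ → Λ) (j s L : ℕ) (x : X) :
    run g (fun i => ω (i + j)) s L x = run g ω (s + j) L x := by
  induction L with
  | zero => rfl
  | succ L ih =>
    show g (ω (s + L + j)) (run g (fun i => ω (i + j)) s L x) = g (ω (s + j + L)) _
    rw [ih, Nat.add_right_comm]

theorem run_congr (g : Λ → X → X) {ω ω' : ℕ → Λ} (s L : ℕ)
    (h : ∀ i, i < L → ω (s + i) = ω' (s + i)) (x : X) : run g ω s L x = run g ω' s L x := by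
  induction L with
  | zero => rfl
  | succ L ih =>
    show g (ω (s + L)) (run g ω s L x) = g (ω' (s + L)) (run g ω' s L x)
    rw [ih (fun i hi => h i (by omega)), h L (by omega)]

theorem run_mem {g : Λ → X → X} {W : Set X} (hW : ∀ a, ∀ x ∈ W, g a x ∈ W) (ω : ℕ → Λ)
    (s L : ℕ) {x : X} (hx : x ∈ W) : run g ω s L x ∈ W := by
  induction L with
  | zero => exact hx
  | succ L ih => exact hW _ _ ih

theorem run_succ' (g : Λ → X → X) (ω : ℕ → Λ) (L : ℕ) (x : X) :
    run g ω 0 (L + 1) x = run g (fun i => ω (i + 1)) 0 L (g (ω 0) x) := by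
  rw [run_shift, Nat.add_comm L 1, run_add]
  rfl

variable [Fintype Λ] [DecidableEq Λ] [Inhabited Λ]

/-- extend a finite word to a sequence -/
def ext {L : ℕ} (w : Fin L → Λ) : ℕ → Λ := fun i => if h : i < L then w ⟨i, h⟩ else default

theorem ext_cons {L : ℕ} (a : Λ) (w : Fin L → Λ) :
    (fun i => ext (Fin.cons a w : Fin (L + 1) → Λ) (i + 1)) = ext w := by
  funext i
  unfold ext
  by_cases h : i < L
  · rw [dif_pos h, dif_pos (by omega)]
    have : (⟨i + 1, by omega⟩ : Fin (L + 1)) = Fin.succ ⟨i, h⟩ := rfl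
    rw [this, Fin.cons_succ]
  · rw [dif_neg h, dif_neg (by omega)]

theorem ext_cons_zero {L : ℕ} (a : Λ) (w : Fin L → Λ) :
    ext (Fin.cons a w : Fin (L + 1) → Λ) 0 = a := by
  unfold ext
  rw [dif_pos (by omega)]
  rfl

theorem sum_cons {L : ℕ} (f : (Fin (L + 1) → Λ) → ℕ) :
    ∑ w, f w = ∑ a : Λ, ∑ w : Fin L → Λ, f (Fin.cons a w) := by
  rw [← (Fin.consEquiv (fun _ : Fin (L + 1) => Λ)).sum_comp, Fintype.sum_prod_type]
  rfl

open Classical in
theorem count_bad {g : Λ → X → X} {W : Set X} (hW : ∀ a, ∀ x ∈ W, g a x ∈ W)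
    (hcap : ∀ x, ∃ a, g a x ∈ W) (L : ℕ) (x : X) :
    ∑ w : Fin L → Λ, (if run g (ext w) 0 L x ∉ W then 1 else 0) ≤ (Fintype.card Λ - 1) ^ L := by
  induction L generalizing x with
  | zero =>
    rw [pow_zero]
    calc _ ≤ ∑ w : Fin 0 → Λ, 1 := Finset.sum_le_sum (fun w _ => by split_ifs <;> simp)
      _ = 1 := by simp
  | succ L ih =>
    rw [sum_cons]
    obtain ⟨a0, ha0⟩ := hcap x
    have h1 : ∀ a : Λ, ∑ w : Fin L → Λ,
        (if run g (ext (Fin.cons a w : Fin (L + 1) → Λ)) 0 (L + 1) x ∉ W then 1 else 0)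
        = ∑ w : Fin L → Λ, (if run g (ext w) 0 L (g a x) ∉ W then 1 else 0) := by
      intro a
      apply Finset.sum_congr rfl
      intro w _
      rw [run_succ', ext_cons, ext_cons_zero]
    simp_rw [h1]
    rw [← Finset.add_sum_erase _ _ (Finset.mem_univ a0)]
    have h2 : ∑ w : Fin L → Λ, (if run g (ext w) 0 L (g a0 x) ∉ W then 1 else 0) = 0 := by
      apply Finset.sum_eq_zero
      intro w _
      rw [if_neg]
      rw [not_not]
      exact run_mem hW _ _ _ ha0
    rw [h2, zero_add]
    calc _ ≤ ∑ a ∈ Finset.univ.erase a0, (Fintype.card Λ - 1) ^ L :=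
          Finset.sum_le_sum (fun a _ => ih _)
      _ = (Fintype.card Λ - 1) ^ (L + 1) := by
          rw [Finset.sum_const, Finset.card_erase_of_mem (Finset.mem_univ _), Finset.card_univ,
            smul_eq_mul, pow_succ, mul_comm]

/-- periodic extension -/
def per {k : ℕ} (w : Fin (k + 1) → Λ) : ℕ → Λ := fun i => w ⟨i % (k + 1), Nat.mod_lt _ (by omega)⟩

theorem per_rot {k : ℕ} (w : Fin (k + 1) → Λ) (j : Fin (k + 1)) :
    per (fun i => w (i + j)) = fun i => per w (i + j) := by
  funext i
  show w (⟨i % (k + 1), Nat.mod_lt _ (by omega)⟩ + j) = w ⟨(i + j) % (k + 1), _⟩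
  apply congrArg w
  apply Fin.ext
  simp [Fin.val_add]

theorem per_add {k : ℕ} (w : Fin (k + 1) → Λ) (i : ℕ) : per w (i + (k + 1)) = per w i := by
  unfold per
  congr 1
  ext
  simp

open Classical in
theorem comb {g : Λ → X → X} {W : Set X} (hW : ∀ a, ∀ x ∈ W, g a x ∈ W)
    (hcap : ∀ x, ∃ a, g a x ∈ W) (V : Λ → Finset X) :
    ∃ k0 : ℕ, ∀ k, k0 ≤ k → ∃ ω : ℕ → Λ, (∀ i, ω (i + (k + 1)) = ω i) ∧
      ∀ j, ∀ v ∈ V (ω j), run g ω (j + 1) k v ∈ W := by
  set N := Fintype.card Λ with hN
  have hNpos : 0 < N := Fintype.card_pos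
  set C : ℕ := ∑ a, (V a).card with hC
  -- numerical inequality
  have hnum : ∃ k0 : ℕ, ∀ k, k0 ≤ k → (k + 1) * (C * (N - 1) ^ k) < N ^ (k + 1) := by
    set r : ℝ := ((N : ℝ) - 1) / N with hr
    have hNr : (0 : ℝ) < N := by exact_mod_cast hNpos
    have hN1 : (1 : ℝ) ≤ N := by exact_mod_cast hNpos
    have hr0 : 0 ≤ r := div_nonneg (by linarith) hNr.le
    have hr1 : r < 1 := by rw [hr, div_lt_one hNr]; linarith
    have h1 := tendsto_self_mul_const_pow_of_lt_one hr0 hr1
    have h2 := tendsto_pow_atTop_nhds_zero_of_lt_one hr0 hr1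
    have h3 : Tendsto (fun n : ℕ => (C : ℝ) * ((n : ℝ) * r ^ n + r ^ n)) atTop (𝓝 0) := by
      have := (h1.add h2).const_mul (C : ℝ)
      simpa using this
    obtain ⟨k0, hk0⟩ := (h3.eventually (gt_mem_nhds one_pos)).exists_forall_of_atTop
    refine ⟨k0, fun k hk => ?_⟩
    have h4 := hk0 k hk
    have h5 : ((N : ℝ) - 1) ^ k = r ^ k * N ^ k := by
      rw [hr, div_pow, div_mul_cancel₀]
      positivity
    have h6 : ((N - 1 : ℕ) : ℝ) = (N : ℝ) - 1 := by
      rw [Nat.cast_sub hNpos]; simp
    have h7 : (((k + 1) * (C * (N - 1) ^ k) : ℕ) : ℝ) < ((N ^ (k + 1) : ℕ) : ℝ) := by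
      push_cast
      rw [h6, h5]
      calc ((k : ℝ) + 1) * (C * (r ^ k * N ^ k)) = (C * (k * r ^ k + r ^ k)) * N ^ k := by ring
        _ < 1 * N ^ k := by gcongr
        _ ≤ N ^ (k + 1) := by
          rw [one_mul, pow_succ]
          exact le_mul_of_one_le_right (by positivity) hN1
    exact_mod_cast h7
  obtain ⟨k0, hk0⟩ := hnum
  refine ⟨k0, fun k hk => ?_⟩
  by_contra hcon
  push Not at hcon
  -- bad words
  set bad : Fin (k + 1) → (Fin (k + 1) → Λ) → Prop := fun j w =>
    ∃ v ∈ V (per w j), run g (per w) (j + 1) k v ∉ W with hbad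
  have hall : ∀ w : Fin (k + 1) → Λ, ∃ j, bad j w := by
    intro w
    obtain ⟨j, v, hv, hvW⟩ := hcon (per w) (per_add w)
    refine ⟨⟨j % (k + 1), Nat.mod_lt _ (by omega)⟩, v, ?_, ?_⟩
    · have : per w (j % (k + 1)) = per w j := by
        unfold per; congr 1; ext; simp
      rw [this]; exact hv
    · intro hcon2
      apply hvW
      have h8 : ∀ m i : ℕ, per w (i + m * (k + 1)) = per w i := by
        intro m i
        unfold per; congr 1; ext; simp
      have h9 : run g (per w) (j + 1) k v = run g (per w) (j % (k + 1) + 1) k v := by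
        have e1 : j + 1 = (j % (k + 1) + 1) + (j / (k + 1)) * (k + 1) := by
          have := Nat.mod_add_div j (k + 1)
          rw [Nat.mul_comm] at this
          omega
        rw [e1, ← run_shift]
        apply run_congr
        intro i _
        exact h8 _ _
      rw [h9]; exact hcon2
  have hcount : N ^ (k + 1) ≤ ∑ j : Fin (k + 1), ∑ w : Fin (k + 1) → Λ,
      (if bad j w then 1 else 0) := by
    rw [Finset.sum_comm]
    calc N ^ (k + 1) = ∑ w : Fin (k + 1) → Λ, 1 := by
          rw [Finset.sum_const, Finset.card_univ, Fintype.card_fun, Fintype.card_fin, smul_eq_mul,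
            mul_one]
      _ ≤ _ := by
          apply Finset.sum_le_sum
          intro w _
          obtain ⟨j, hj⟩ := hall w
          calc 1 = if bad j w then 1 else 0 := by rw [if_pos hj]
            _ ≤ _ := Finset.single_le_sum (f := fun j => if bad j w then 1 else 0)
              (fun _ _ => Nat.zero_le _) (Finset.mem_univ j)
  have hrot : ∀ j : Fin (k + 1), ∑ w : Fin (k + 1) → Λ, (if bad j w then 1 else 0)
      = ∑ w : Fin (k + 1) → Λ, (if bad 0 w then 1 else 0) := by
    intro j
    set e : (Fin (k + 1) → Λ) ≃ (Fin (k + 1) → Λ) := (Equiv.addRight j).arrowCongr (Equiv.refl Λ)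
      with he
    rw [← e.symm.sum_comp (fun w => if bad 0 w then 1 else 0)]
    apply Finset.sum_congr rfl
    intro w _
    have he2 : e.symm w = fun i => w (i + j) := by
      funext i
      rw [he]
      simp [Equiv.arrowCongr]
    rw [he2]
    have : bad j w ↔ bad 0 (fun i => w (i + j)) := by
      rw [hbad]
      simp only
      rw [per_rot]
      have e0 : (((0 : Fin (k + 1)) : ℕ)) = 0 := rfl
      rw [e0, Nat.zero_add]
      constructor
      · rintro ⟨v, hv, h⟩
        refine ⟨v, ?_, ?_⟩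
        · show v ∈ V (per w (0 + j))
          rw [Nat.zero_add]; exact hv
        · rw [run_shift, Nat.add_comm 1]; exact h
      · rintro ⟨v, hv, h⟩
        refine ⟨v, ?_, ?_⟩
        · have hv' : v ∈ V (per w (0 + j)) := hv
          rw [Nat.zero_add] at hv'; exact hv'
        · rw [run_shift, Nat.add_comm 1] at h; exact h
    by_cases hb : bad j w
    · rw [if_pos hb, if_pos (this.1 hb)]
    · rw [if_neg hb, if_neg (fun h => hb (this.2 h))]
  have hzero : ∑ w : Fin (k + 1) → Λ, (if bad 0 w then 1 else 0) ≤ C * (N - 1) ^ k := by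
    rw [sum_cons, hC, Finset.sum_mul]
    apply Finset.sum_le_sum
    intro a _
    calc ∑ w : Fin k → Λ, (if bad 0 (Fin.cons a w) then 1 else 0)
        ≤ ∑ w : Fin k → Λ, ∑ v ∈ V a, (if run g (ext w) 0 k v ∉ W then 1 else 0) := by
          apply Finset.sum_le_sum
          intro w _
          split_ifs with hb
          · obtain ⟨v, hv, hvW⟩ := hb
            have e0 : (((0 : Fin (k + 1)) : ℕ)) = 0 := rfl
            rw [e0] at hv hvW
            have hv' : v ∈ V a := hv
            rw [Nat.zero_add] at hvW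
            have e1 : run g (per (Fin.cons a w : Fin (k + 1) → Λ)) 1 k v = run g (ext w) 0 k v := by
              rw [← ext_cons a w, run_shift]
              rw [Nat.zero_add]
              apply run_congr
              intro i hi
              unfold per ext
              rw [dif_pos (by omega)]
              congr 1
              ext
              simp only
              exact Nat.mod_eq_of_lt (by omega)
            rw [e1] at hvW
            calc 1 = if run g (ext w) 0 k v ∉ W then 1 else 0 := by rw [if_pos hvW]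
              _ ≤ _ := Finset.single_le_sum (f := fun v => if run g (ext w) 0 k v ∉ W then 1 else 0)
                (fun _ _ => Nat.zero_le _) hv'
          · exact Nat.zero_le _
      _ = ∑ v ∈ V a, ∑ w : Fin k → Λ, (if run g (ext w) 0 k v ∉ W then 1 else 0) :=
          Finset.sum_comm
      _ ≤ ∑ v ∈ V a, (N - 1) ^ k := Finset.sum_le_sum (fun v _ => count_bad hW hcap k v)
      _ = (V a).card * (N - 1) ^ k := by rw [Finset.sum_const, smul_eq_mul]
  have h10 : N ^ (k + 1) ≤ (k + 1) * (C * (N - 1) ^ k) := by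
    calc N ^ (k + 1) ≤ _ := hcount
      _ = ∑ j : Fin (k + 1), ∑ w : Fin (k + 1) → Λ, (if bad 0 w then 1 else 0) :=
          Finset.sum_congr rfl (fun j _ => hrot j)
      _ = (k + 1) * ∑ w : Fin (k + 1) → Λ, (if bad 0 w then 1 else 0) := by
          rw [Finset.sum_const, Finset.card_univ, Fintype.card_fin, smul_eq_mul]
      _ ≤ _ := Nat.mul_le_mul_left _ hzero
  exact absurd (hk0 k hk) (not_lt.2 h10)

end

end Pool.Agent.H76.Fatou
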