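import Mathlib

set_option autoImplicit false

open Filter Topology Metric

namespace Pool.Agent.H76.Fatou

/-- the dilated iterates used to show that a self-map with a margin contracts -/
noncomputable def dil (g : ℂ → ℂ) (δ : ℝ) (z : ℂ) : ℕ → ℂ → ℂ
  | 0 => fun y => y
  | n + 1 => fun y => g (dil g δ z n y) + δ * (g (dil g δ z n y) - g (g^[n] z))

section

variable {U : Set ℂ} {g : ℂ → ℂ} {η R : ℝ}

theorem iter_mem (htr : ∀ z ∈ U, ball (g z) η ⊆ U) (hη : 0 < η) {z : ℂ} (hz : z ∈ U) (n : ℕ) :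
    g^[n] z ∈ U := by
  induction n with
  | zero => exact hz
  | succ n ih =>
    rw [Function.iterate_succ_apply']
    exact htr _ ih (mem_ball_self hη)

theorem dil_mem (hη : 0 < η) (hR : ∀ a ∈ U, ∀ b ∈ U, ‖a - b‖ ≤ R)
    (htr : ∀ z ∈ U, ball (g z) η ⊆ U) {δ : ℝ} (hδ0 : 0 ≤ δ) (hδ : δ * R < η)
    {z : ℂ} (hz : z ∈ U) (n : ℕ) {y : ℂ} (hy : y ∈ U) : dil g δ z n y ∈ U := by
  induction n with
  | zero => exact hy
  | succ n ih =>
    have h1 : g (dil g δ z n y) ∈ U := htr _ ih (mem_ball_self hη)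
    have h2 : g (g^[n] z) ∈ U := by
      rw [← Function.iterate_succ_apply' g n z]; exact iter_mem htr hη hz _
    apply htr _ ih
    rw [mem_ball, dist_eq_norm]
    show ‖g (dil g δ z n y) + δ * (g (dil g δ z n y) - g (g^[n] z)) - g (dil g δ z n y)‖ < η
    rw [add_sub_cancel_left, norm_mul, Complex.norm_real, Real.norm_of_nonneg hδ0]
    calc δ * ‖g (dil g δ z n y) - g (g^[n] z)‖ ≤ δ * R := by gcongr; exact hR _ h1 _ h2
      _ < η := hδ

theorem dil_self (δ : ℝ) (z : ℂ) (n : ℕ) : dil g δ z n z = g^[n] z := by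
  induction n with
  | zero => rfl
  | succ n ih =>
    show g (dil g δ z n z) + δ * (g (dil g δ z n z) - g (g^[n] z)) = _
    rw [ih, sub_self, mul_zero, add_zero, Function.iterate_succ_apply']

theorem dil_diff (hg : DifferentiableOn ℂ g U) (hη : 0 < η)
    (hR : ∀ a ∈ U, ∀ b ∈ U, ‖a - b‖ ≤ R)
    (htr : ∀ z ∈ U, ball (g z) η ⊆ U) {δ : ℝ} (hδ0 : 0 ≤ δ) (hδ : δ * R < η)
    {z : ℂ} (hz : z ∈ U) (n : ℕ) : DifferentiableOn ℂ (dil g δ z n) U := by
  induction n with
  | zero => exact differentiableOn_id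
  | succ n ih =>
    have h1 : DifferentiableOn ℂ (fun y => g (dil g δ z n y)) U :=
      hg.comp ih (fun y hy => dil_mem hη hR htr hδ0 hδ hz n hy)
    exact h1.add ((h1.sub (differentiableOn_const _)).const_mul _)

theorem iter_diff (hg : DifferentiableOn ℂ g U) (htr : ∀ z ∈ U, ball (g z) η ⊆ U) (hη : 0 < η)
    (n : ℕ) : DifferentiableOn ℂ (g^[n]) U := by
  induction n with
  | zero => exact differentiableOn_id
  | succ n ih =>
    rw [Function.iterate_succ']
    exact hg.comp ih (fun y hy => iter_mem htr hη hy n)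

theorem dil_deriv (hU : IsOpen U) (hg : DifferentiableOn ℂ g U) (hη : 0 < η)
    (htr : ∀ z ∈ U, ball (g z) η ⊆ U) {δ : ℝ}
    {z : ℂ} (hz : z ∈ U) (n : ℕ) :
    ∃ c : ℂ, HasDerivAt (g^[n]) c z ∧ HasDerivAt (dil g δ z n) ((1 + δ) ^ n * c) z := by
  induction n with
  | zero =>
    refine ⟨1, hasDerivAt_id z, ?_⟩
    rw [pow_zero, one_mul]
    exact hasDerivAt_id z
  | succ n ih =>
    obtain ⟨c, h1, h2⟩ := ih
    have hzn := iter_mem htr hη hz n
    have h3 : HasDerivAt g (deriv g (g^[n] z)) (g^[n] z) :=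
      (hg.differentiableAt (hU.mem_nhds hzn)).hasDerivAt
    refine ⟨deriv g (g^[n] z) * c, ?_, ?_⟩
    · rw [Function.iterate_succ']
      exact h3.comp z h1
    · have h4 : HasDerivAt g (deriv g (g^[n] z)) (dil g δ z n z) := by rw [dil_self]; exact h3
      have h5 : HasDerivAt (fun y => g (dil g δ z n y))
          (deriv g (g^[n] z) * ((1 + δ) ^ n * c)) z := h4.comp z h2
      have h6 := h5.add ((h5.sub_const (g (g^[n] z))).const_mul (δ : ℂ))
      have e : (1 + (δ : ℂ)) ^ (n + 1) * (deriv g (g^[n] z) * c)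
          = deriv g (g^[n] z) * ((1 + δ) ^ n * c) + δ * (deriv g (g^[n] z) * ((1 + δ) ^ n * c)) := by
        ring
      rw [e]
      exact h6

theorem iter_deriv_le (hU : IsOpen U) (hg : DifferentiableOn ℂ g U) (hη : 0 < η)
    (hR : ∀ a ∈ U, ∀ b ∈ U, ‖a - b‖ ≤ R)
    (htr : ∀ z ∈ U, ball (g z) η ⊆ U) {δ : ℝ} (hδ0 : 0 ≤ δ) (hδ : δ * R < η)
    {z : ℂ} {r : ℝ} (hr : 0 < r) (hz : closedBall z r ⊆ U) (n : ℕ) :
    ‖deriv (g^[n]) z‖ ≤ R / r * ((1 + δ) ^ n)⁻¹ := by
  have hzU : z ∈ U := hz (mem_closedBall_self hr.le)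
  obtain ⟨c, h1, h2⟩ := dil_deriv (δ := δ) hU hg hη htr hzU n
  have h3 : ‖deriv (dil g δ z n) z‖ ≤ R / r := by
    have h4 : deriv (dil g δ z n) z = deriv (fun y => dil g δ z n y - dil g δ z n z) z := by
      rw [deriv_sub_const_fun]
    rw [h4]
    apply Complex.norm_deriv_le_of_forall_mem_sphere_norm_le hr
    · apply DifferentiableOn.diffContOnCl
      rw [closure_ball z hr.ne']
      exact ((dil_diff hg hη hR htr hδ0 hδ hzU n).mono hz).sub (differentiableOn_const _)
    · intro y hy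
      exact hR _ (dil_mem hη hR htr hδ0 hδ hzU n (hz (sphere_subset_closedBall hy))) _
        (dil_mem hη hR htr hδ0 hδ hzU n hzU)
  rw [h1.deriv]
  rw [h2.deriv, norm_mul] at h3
  have h5 : ‖((1 : ℂ) + δ) ^ n‖ = (1 + δ) ^ n := by
    rw [norm_pow]
    congr 1
    have : ((1 : ℂ) + δ) = ((1 + δ : ℝ) : ℂ) := by push_cast; ring
    rw [this, Complex.norm_real, Real.norm_of_nonneg (by linarith)]
  rw [h5] at h3
  have h6 : (0 : ℝ) < (1 + δ) ^ n := by positivity
  rw [← div_eq_mul_inv, le_div_iff₀ h6]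
  linarith [mul_comm ((1 + δ) ^ n) ‖c‖]

/-- a bounded holomorphic self-map with a margin: every orbit converges to an attracting cycle -/
theorem lemC (hU : IsOpen U) (hb : Bornology.IsBounded U) (hg : DifferentiableOn ℂ g U)
    (hη : 0 < η) (htr : ∀ z ∈ U, ball (g z) η ⊆ U) {z : ℂ} (hz : z ∈ U) :
    ∃ p ∈ U, ∃ N : ℕ, 0 < N ∧ g^[N] p = p ∧ ∃ V : Set ℂ, IsOpen V ∧ p ∈ V ∧ V ⊆ U ∧
      (∀ w ∈ V, Tendsto (fun k : ℕ => g^[N * k] w) atTop (𝓝 p)) ∧ ∃ s : ℕ, g^[s] z ∈ V := by
  obtain ⟨R0, hR0⟩ := hb.exists_norm_le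
  set R : ℝ := 2 * |R0| + 1 with hRdef
  have hRpos : 0 < R := by positivity
  have hR : ∀ a ∈ U, ∀ b ∈ U, ‖a - b‖ ≤ R := by
    intro a ha b hb'
    calc ‖a - b‖ ≤ ‖a‖ + ‖b‖ := norm_sub_le _ _
      _ ≤ |R0| + |R0| := add_le_add ((hR0 a ha).trans (le_abs_self _)) ((hR0 b hb').trans (le_abs_self _))
      _ ≤ R := by rw [hRdef]; linarith [abs_nonneg R0]
  set δ : ℝ := η / (2 * R) with hδdef
  have hδpos : 0 < δ := by positivity
  have hδ : δ * R < η := by
    rw [hδdef]
    have : η / (2 * R) * R = η / 2 := by field_simp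
    rw [this]; linarith
  -- contraction on balls around points of the image
  have htend : Tendsto (fun n : ℕ => R / (η / 4) * ((1 + δ) ^ n)⁻¹) atTop (𝓝 0) := by
    have h1 : Tendsto (fun n : ℕ => (1 + δ) ^ n) atTop atTop :=
      tendsto_pow_atTop_atTop_of_one_lt (by linarith)
    have h2 := h1.inv_tendsto_atTop.const_mul (R / (η / 4))
    rw [mul_zero] at h2
    exact h2
  obtain ⟨N, hN⟩ := (htend.eventually (gt_mem_nhds (show (0 : ℝ) < 1 / 8 by norm_num))).exists_forall_of_atTop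
  have hlip : ∀ n, N ≤ n → ∀ w ∈ U, ball w η ⊆ U → ∀ x ∈ ball w (η / 2), ∀ y ∈ ball w (η / 2),
      ‖g^[n] y - g^[n] x‖ ≤ 1 / 8 * ‖y - x‖ := by
    intro n hn w hw hball x hx y hy
    have hsub : ball w (η / 2) ⊆ U := (ball_subset_ball (by linarith)).trans hball
    apply Convex.norm_image_sub_le_of_norm_deriv_le (𝕜 := ℂ) (s := ball w (η / 2)) _ _
      (convex_ball _ _) hx hy
    · intro a ha
      exact (iter_diff hg htr hη n).differentiableAt (hU.mem_nhds (hsub ha))
    · intro a ha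
      have hcb : closedBall a (η / 4) ⊆ U := by
        refine Set.Subset.trans ?_ hball
        intro b hb'
        rw [mem_closedBall] at hb'
        rw [mem_ball] at ha ⊢
        calc dist b w ≤ dist b a + dist a w := dist_triangle _ _ _
          _ < η := by linarith
      have := iter_deriv_le hU hg hη hR htr hδpos.le hδ (by positivity) hcb n
      exact this.trans (hN n hn).le
  -- the orbit
  set N1 : ℕ := N + 1 with hN1
  set w : ℕ → ℂ := fun k => g^[N1 * k] (g z) with hw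
  have hwU : ∀ k, w k ∈ U ∧ ball (w k) η ⊆ U := by
    intro k
    have h1 : w k = g (g^[N1 * k] z) := by
      rw [hw]
      show g^[N1 * k] (g z) = _
      rw [← Function.iterate_succ_apply, Function.iterate_succ_apply']
    have h2 := htr _ (iter_mem htr hη hz (N1 * k))
    rw [h1]
    exact ⟨h2 (mem_ball_self hη), h2⟩
  obtain ⟨a, -, φ, hφ, hlim⟩ := tendsto_subseq_of_bounded hb (fun k => (hwU k).1)
  have hcau := hlim.cauchySeq
  rw [Metric.cauchySeq_iff] at hcau
  obtain ⟨j, hj⟩ := hcau (η / 8) (by positivity)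
  have hkl := hj j le_rfl (j + 1) (Nat.le_succ j)
  set k := φ j with hk
  set l := φ (j + 1) with hl
  have hlt : k < l := hφ (Nat.lt_succ_self j)
  obtain ⟨L, hL⟩ := Nat.exists_eq_add_of_lt hlt
  set M : ℕ := N1 * (L + 1) with hM
  have hMN : N ≤ M := by
    rw [hM, hN1]; nlinarith [Nat.zero_le L, Nat.zero_le N]
  have hMpos : 0 < M := by rw [hM, hN1]; positivity
  have hwl : g^[M] (w k) = w l := by
    rw [hw]
    show g^[M] (g^[N1 * k] (g z)) = g^[N1 * l] (g z)
    rw [← Function.iterate_add_apply]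
    congr 2
    rw [hL, hM]; ring
  have hdist : dist (w k) (w l) < η / 8 := hkl
  set c := w k with hc
  have hlipM := hlip M hMN c (hwU k).1 (hwU k).2
  set B := closedBall c (η / 4) with hB
  have hBsub : B ⊆ ball c (η / 2) := closedBall_subset_ball (by linarith)
  have hcB : c ∈ B := mem_closedBall_self (by positivity)
  have hmaps : ∀ y ∈ B, dist (g^[M] y) c ≤ η / 32 + η / 8 := by
    intro y hy
    have h1 := hlipM c (hBsub hcB) y (hBsub hy)
    rw [hB, mem_closedBall] at hy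
    calc dist (g^[M] y) c ≤ dist (g^[M] y) (g^[M] c) + dist (g^[M] c) c := dist_triangle _ _ _
      _ ≤ 1 / 8 * dist y c + dist (g^[M] c) c := by
          gcongr
          rw [dist_eq_norm, dist_eq_norm]; exact h1
      _ ≤ 1 / 8 * (η / 4) + η / 8 := by
          gcongr
          rw [hwl, dist_comm]; exact hdist.le
      _ = η / 32 + η / 8 := by ring
  have hmapsB : Set.MapsTo (g^[M]) B B := by
    intro y hy
    have := hmaps y hy
    rw [hB, mem_closedBall]; linarith
  have hLW : LipschitzOnWith (1 / 8) (g^[M]) B := by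
    apply LipschitzOnWith.of_dist_le_mul
    intro x hx y hy
    have := hlipM y (hBsub hy) x (hBsub hx)
    rw [dist_eq_norm, dist_eq_norm]
    simpa using this
  have hcon : ContractingWith (1 / 8) (hmapsB.restrict (g^[M]) B B) := by
    constructor
    · rw [← NNReal.coe_lt_coe]; norm_num
    · exact hLW.mapsToRestrict hmapsB
  obtain ⟨p, hpB, hpfix, -, -⟩ := ContractingWith.exists_fixedPoint'
    (isClosed_closedBall.isComplete) hmapsB hcon hcB (edist_ne_top _ _)
  have hpfix' : g^[M] p = p := hpfix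
  have hpc : dist p c ≤ η / 32 + η / 8 := by
    have := hmaps p hpB
    rwa [hpfix'] at this
  have hiter : ∀ n : ℕ, ∀ y ∈ B, g^[M * n] y ∈ B ∧ dist (g^[M * n] y) p ≤ (1 / 8) ^ n * dist y p := by
    intro n
    induction n with
    | zero => intro y hy; simpa using hy
    | succ n ih =>
      intro y hy
      obtain ⟨h1, h2⟩ := ih y hy
      have h3 : g^[M * (n + 1)] y = g^[M] (g^[M * n] y) := by
        rw [← Function.iterate_add_apply]; congr 2; ring
      rw [h3]
      refine ⟨hmapsB h1, ?_⟩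
      have h4 := hlipM p (hBsub hpB) _ (hBsub h1)
      rw [hpfix', ← dist_eq_norm, ← dist_eq_norm] at h4
      calc _ ≤ 1 / 8 * dist (g^[M * n] y) p := h4
        _ ≤ 1 / 8 * ((1 / 8) ^ n * dist y p) := by gcongr
        _ = _ := by ring
  refine ⟨p, ?_, M, hMpos, hpfix', ball c (η / 4), isOpen_ball, ?_, ?_, ?_, ?_⟩
  · exact (hwU k).2 (by rw [mem_ball]; linarith)
  · rw [mem_ball]; linarith
  · exact (ball_subset_ball (by linarith)).trans (hwU k).2
  · intro y hy
    rw [tendsto_iff_dist_tendsto_zero]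
    have h1 : Tendsto (fun n : ℕ => (1 / 8 : ℝ) ^ n * dist y p) atTop (𝓝 0) := by
      have := (tendsto_pow_atTop_nhds_zero_of_lt_one (show (0:ℝ) ≤ 1 / 8 by norm_num)
        (by norm_num)).mul_const (dist y p)
      rwa [zero_mul] at this
    exact squeeze_zero (fun _ => dist_nonneg)
      (fun n => (hiter n y (ball_subset_closedBall hy)).2) h1
  · refine ⟨N1 * k + 1, ?_⟩
    rw [Function.iterate_add_apply, Function.iterate_one]
    exact mem_ball_self (by positivity)

end

end Pool.Agent.H76.Fatou
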