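import Mathlib
import Pool.Agent.H76.Fatou.Sph
import Pool.Agent.H76.Fatou.LemC

set_option autoImplicit false

open Filter Topology OnePoint Metric
open Pool.Agent.H44.Fatou

namespace Pool.Agent.H76.Fatou

/-- the orbit of `x` converges to an attracting cycle of `F` -/
def Attr (F : S → S) (x : S) : Prop :=
  ∃ z : S, ∃ n : ℕ, 0 < n ∧ F^[n] z = z ∧
    (∃ U ∈ 𝓝 z, ∀ w ∈ U, Tendsto (fun k : ℕ => F^[n * k] w) atTop (𝓝 z)) ∧
    Tendsto (fun k : ℕ => F^[n * k] x) atTop (𝓝 z)

theorem iter_mul_fix {F : S → S} {p : S} {N : ℕ} (h : F^[N] p = p) (k : ℕ) : F^[N * k] p = p := by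
  rw [Function.iterate_mul]
  exact Function.iterate_fixed h k

theorem attr_of_shift {F : S → S} (hF : Continuous F) {p : S} {N : ℕ} (hN : 0 < N)
    (hp : F^[N] p = p) {V : Set S} (hV : V ∈ 𝓝 p)
    (hVt : ∀ w ∈ V, Tendsto (fun k : ℕ => F^[N * k] w) atTop (𝓝 p)) {x : S} {s : ℕ}
    (hx : F^[s] x ∈ V) : Attr F x := by
  -- choose e with s + e divisible by N
  set e : ℕ := N * s - s with he
  have hse : s + e = N * s := by
    rw [he]; have : s ≤ N * s := Nat.le_mul_of_pos_left s hN
    omega
  set e' : ℕ := N * e - e with he'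
  have hee : e + e' = N * e := by
    rw [he']; have : e ≤ N * e := Nat.le_mul_of_pos_left e hN
    omega
  have hcont : ∀ n, Continuous (F^[n]) := fun n => hF.iterate n
  refine ⟨F^[e] p, N, hN, ?_, ?_, ?_⟩
  · rw [← Function.iterate_add_apply, Nat.add_comm, Function.iterate_add_apply, hp]
  · refine ⟨F^[e'] ⁻¹' V, ?_, ?_⟩
    · apply (hcont e').continuousAt.preimage_mem_nhds
      have : F^[e'] (F^[e] p) = p := by
        rw [← Function.iterate_add_apply, Nat.add_comm, hee]
        exact iter_mul_fix hp e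
      rw [this]; exact hV
    · intro w hw
      have h1 := ((hcont e).tendsto p).comp (hVt _ hw)
      rw [← tendsto_add_atTop_iff_nat e]
      apply h1.congr
      intro k
      simp only [Function.comp_apply]
      rw [← Function.iterate_add_apply, ← Function.iterate_add_apply]
      congr 1
      rw [Nat.mul_add, ← hee]; ring
  · have h1 := ((hcont e).tendsto p).comp (hVt _ hx)
    rw [← tendsto_add_atTop_iff_nat s]
    apply h1.congr
    intro k
    simp only [Function.comp_apply]
    rw [← Function.iterate_add_apply, ← Function.iterate_add_apply]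
    congr 1
    rw [Nat.mul_add, ← hse]; ring

/-- A closed proper subset `K` of the sphere mapped into its interior by a rational map `F`:
points whose orbit meets `K` are attracted to attracting cycles. -/
theorem trapping {F : S → S} (hF : Lift F) {K : Set S} (hK : IsClosed K) (hKne : K ≠ Set.univ)
    (hFK : ∀ x ∈ K, F x ∈ interior K) {x : S} {s : ℕ} (hx : F^[s] x ∈ K) : Attr F x := by
  obtain ⟨a, ha⟩ := (Set.ne_univ_iff_exists_notMem K).1 hKne
  obtain ⟨h, hl1, hl2, h3⟩ := exists_mob_infty a
  set G : S → S := fun y => h (F (h.symm y)) with hG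
  have hGl : Lift G := (hl1.comp hF).comp hl2
  set K' : Set S := h.symm ⁻¹' K with hK'
  have hK'c : IsClosed K' := hK.preimage h.symm.continuous
  have hK'i : interior K' = h.symm ⁻¹' (interior K) := (h.symm.preimage_interior K).symm
  have hGK : ∀ y ∈ K', G y ∈ interior K' := by
    intro y hy
    rw [hK'i]
    show h.symm (h (F (h.symm y))) ∈ interior K
    rw [h.symm_apply_apply]
    exact hFK _ hy
  have hinf : (∞ : S) ∉ K' := by
    intro hcon
    apply ha
    have : h.symm ∞ ∈ K := hcon
    rwa [← h3, h.symm_apply_apply] at this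
  -- the finite part
  set U : Set ℂ := {z : ℂ | (z : S) ∈ interior K'} with hU
  have hUo : IsOpen U := isOpen_interior.preimage continuous_coe
  set KC : Set ℂ := {z : ℂ | (z : S) ∈ K'} with hKC
  have hKCc : IsCompact KC := by
    have h4 : K' = ((↑) : ℂ → S) '' KC := by
      ext y
      constructor
      · intro hy
        induction y using OnePoint.rec with
        | infty => exact absurd hy hinf
        | coe z => exact ⟨z, hy, rfl⟩
      · rintro ⟨z, hz, rfl⟩; exact hz
    have h5 : IsCompact (((↑) : ℂ → S) '' KC) := by rw [← h4]; exact hK'c.isCompact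
    exact (isOpenEmbedding_coe.isInducing.isCompact_iff).2 h5
  have hUK : U ⊆ KC := fun z hz => interior_subset (s := K') hz
  have hUb : Bornology.IsBounded U := hKCc.isBounded.subset hUK
  set g : ℂ → ℂ := fun z => toC (G (z : S)) with hg
  have hGfin : ∀ z ∈ KC, G (z : S) ≠ ∞ := by
    intro z hz hcon
    have := interior_subset (hGK _ hz)
    rw [hcon] at this
    exact hinf this
  have hgc : ∀ z ∈ KC, ((g z : ℂ) : S) = G (z : S) := fun z hz => coe_toC (hGfin z hz)
  have hgU : ∀ z ∈ KC, g z ∈ U := by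
    intro z hz
    show ((g z : ℂ) : S) ∈ interior K'
    rw [hgc z hz]; exact hGK _ hz
  have hgd : DifferentiableOn ℂ g U := fun z hz =>
    (hGl.differentiableAt (hGfin z (hUK hz))).differentiableWithinAt
  have hgcont : ContinuousOn g KC := fun z hz =>
    (hGl.differentiableAt (hGfin z hz)).continuousAt.continuousWithinAt
  have himg : IsCompact (g '' KC) := hKCc.image_of_continuousOn hgcont
  obtain ⟨η, hη, hthick⟩ := himg.exists_thickening_subset_open hUo
    (by rintro _ ⟨z, hz, rfl⟩; exact hgU z hz)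
  have htr : ∀ z ∈ U, ball (g z) η ⊆ U := by
    intro z hz y hy
    apply hthick
    rw [mem_thickening_iff]
    exact ⟨g z, ⟨z, hUK hz, rfl⟩, hy⟩
  -- the starting point
  set y0 : S := h (F^[s] x) with hy0
  have hy0K : y0 ∈ K' := by
    show h.symm (h (F^[s] x)) ∈ K
    rw [h.symm_apply_apply]; exact hx
  have hGy0 : G y0 ≠ ∞ := by
    intro hcon
    have := interior_subset (hGK _ hy0K)
    rw [hcon] at this
    exact hinf this
  set z0 : ℂ := toC (G y0) with hz0
  have hz0' : (z0 : S) = G y0 := coe_toC hGy0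
  have hz0U : z0 ∈ U := by
    show (z0 : S) ∈ interior K'
    rw [hz0']; exact hGK _ hy0K
  obtain ⟨p, hpU, N, hN, hpfix, V, hVo, hpV, hVU, hVt, t, ht⟩ := lemC hUo hUb hgd hη htr hz0U
  -- iterates correspond
  have hit : ∀ n : ℕ, ∀ z ∈ U, ((g^[n] z : ℂ) : S) = G^[n] (z : S) ∧ g^[n] z ∈ U := by
    intro n
    induction n with
    | zero => intro z hz; exact ⟨rfl, hz⟩
    | succ n ih =>
      intro z hz
      obtain ⟨h4, h5⟩ := ih z hz
      rw [Function.iterate_succ_apply', Function.iterate_succ_apply', ← h4]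
      exact ⟨hgc _ (hUK h5), hgU _ (hUK h5)⟩
  have hconj : ∀ n : ℕ, ∀ y : S, h.symm (G^[n] y) = F^[n] (h.symm y) := by
    intro n
    induction n with
    | zero => intro y; rfl
    | succ n ih =>
      intro y
      rw [Function.iterate_succ_apply', Function.iterate_succ_apply', ← ih]
      show h.symm (h (F (h.symm (G^[n] y)))) = _
      rw [h.symm_apply_apply]
  set P : S := h.symm (p : S) with hP
  set VS : Set S := h ⁻¹' (((↑) : ℂ → S) '' V) with hVS
  have hVSo : IsOpen VS := (isOpenEmbedding_coe.isOpenMap V hVo).preimage h.continuous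
  have hPV : P ∈ VS := by
    show h (h.symm (p : S)) ∈ (((↑) : ℂ → S) '' V)
    rw [h.apply_symm_apply]; exact ⟨p, hpV, rfl⟩
  apply attr_of_shift (hF.continuous) (p := P) (N := N) (V := VS) (s := t + 1 + s) hN ?_
    (hVSo.mem_nhds hPV) ?_ ?_
  · rw [hP, ← hconj, ← (hit N p hpU).1, hpfix]
  · intro w hw
    obtain ⟨v, hv, hvw⟩ := hw
    have hwv : w = h.symm (v : S) := by
      rw [hvw, h.symm_apply_apply]
    have h4 : Tendsto (fun k : ℕ => ((g^[N * k] v : ℂ) : S)) atTop (𝓝 (p : S)) :=
      (continuous_coe.tendsto p).comp (hVt v hv)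
    have h5 := (h.symm.continuous.tendsto (p : S)).comp h4
    apply h5.congr
    intro k
    simp only [Function.comp_apply]
    rw [(hit (N * k) v (hVU hv)).1, hconj, hwv]
  · have h4 : F^[t + 1 + s] x = h.symm ((g^[t] z0 : ℂ) : S) := by
      rw [(hit t z0 hz0U).1, hconj, hz0', Function.iterate_add_apply, Function.iterate_add_apply]
      congr 1
      show F (F^[s] x) = h.symm (h (F (h.symm (h (F^[s] x)))))
      rw [h.symm_apply_apply, h.symm_apply_apply]
    rw [h4]
    show h (h.symm ((g^[t] z0 : ℂ) : S)) ∈ (((↑) : ℂ → S) '' V)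
    rw [h.apply_symm_apply]
    exact ⟨_, ht, rfl⟩

end Pool.Agent.H76.Fatou
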