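import Mathlib
import Pool.Agent.H76.Fatou.Trapping

set_option autoImplicit false

open Filter Topology OnePoint Metric
open Pool.Agent.H44.Fatou

namespace Pool.Agent.H76.Fatou

/-- locally injective at `x` -/
def LocInj (F : S → S) (x : S) : Prop := ∃ U ∈ 𝓝 x, Set.InjOn F U

theorem locInj_of_comp {F G : S → S} {x : S} (h : LocInj (G ∘ F) x) : LocInj F x := by
  obtain ⟨U, hU, hi⟩ := h
  exact ⟨U, hU, fun a ha b hb hab => hi ha hb (by simp only [Function.comp_apply, hab])⟩

theorem LocInj.comp {F G : S → S} {x : S} (hF : LocInj F x) (hFc : Continuous F)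
    (hG : LocInj G (F x)) : LocInj (G ∘ F) x := by
  obtain ⟨U, hU, hi⟩ := hF
  obtain ⟨V, hV, hj⟩ := hG
  refine ⟨U ∩ F ⁻¹' V, inter_mem hU (hFc.continuousAt.preimage_mem_nhds hV), ?_⟩
  intro a ha b hb hab
  exact hi ha.1 hb.1 (hj ha.2 hb.2 hab)

/-- a critical fixed point has arbitrarily small trapping discs -/
theorem superattracting {F : S → S} (hF : Lift F) {c : S} (hc : F c = c) (hcrit : ¬ LocInj F c) :
    ∃ D : Set S, IsOpen D ∧ c ∈ D ∧ (∀ x ∈ closure D, F x ∈ D) ∧ closure D ≠ Set.univ := by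
  obtain ⟨h, hl1, hl2, h3⟩ := exists_mob_zero c
  have hc' : h.symm ((0 : ℂ) : S) = c := by rw [← h3, h.symm_apply_apply]
  set G : S → S := fun y => h (F (h.symm y)) with hG
  have hGl : Lift G := (hl1.comp hF).comp hl2
  have hG0 : G ((0 : ℂ) : S) = ((0 : ℂ) : S) := by
    show h (F (h.symm ((0 : ℂ) : S))) = _
    rw [hc', hc, h3]
  set u : ℂ → ℂ := fun z => toC (G (z : S)) with hu
  have hu0 : u 0 = 0 := by
    show toC (G ((0 : ℂ) : S)) = 0
    rw [hG0, toC_coe]
  have hfin : ∀ᶠ z : ℂ in 𝓝 0, G (z : S) ≠ ∞ := by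
    have h1 : ContinuousAt (fun z : ℂ => G (z : S)) 0 :=
      (hGl.continuous.comp continuous_coe).continuousAt
    apply h1.eventually_ne
    rw [hG0]; exact coe_ne_infty _
  have hdiff : ∀ᶠ z : ℂ in 𝓝 0, DifferentiableAt ℂ u z := by
    filter_upwards [hfin] with z hz
    exact hGl.differentiableAt hz
  have hana : AnalyticAt ℂ u 0 := by
    rw [Complex.analyticAt_iff_eventually_differentiableAt]
    exact hdiff
  -- the derivative vanishes
  have hder : deriv u 0 = 0 := by
    by_contra hne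
    have hs : HasStrictDerivAt u (deriv u 0) 0 := hana.hasStrictDerivAt
    obtain ⟨V, hV, hinj⟩ : ∃ V ∈ 𝓝 (0 : ℂ), Set.InjOn u V := by
      have h5 := hs.hasStrictFDerivAt_equiv hne
      exact ⟨h5.toOpenPartialHomeomorph.source,
        h5.toOpenPartialHomeomorph.open_source.mem_nhds h5.mem_toOpenPartialHomeomorph_source,
        h5.toOpenPartialHomeomorph.injOn⟩
    apply hcrit
    refine ⟨h ⁻¹' (((↑) : ℂ → S) '' (V ∩ {z | G (z : S) ≠ ∞})), ?_, ?_⟩
    · apply h.continuous.continuousAt.preimage_mem_nhds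
      rw [h3, nhds_coe_eq]
      exact image_mem_map (inter_mem hV hfin)
    · rintro a ⟨x, ⟨hx1, hx2⟩, hxa⟩ b ⟨y, ⟨hy1, hy2⟩, hyb⟩ hab
      have e1 : G (x : S) = G (y : S) := by
        show h (F (h.symm (x : S))) = h (F (h.symm (y : S)))
        rw [hxa, hyb, h.symm_apply_apply, h.symm_apply_apply, hab]
      have e2 : x = y := hinj hx1 hy1 (by show toC (G x) = toC (G y); rw [e1])
      have e3 : h a = h b := by rw [← hxa, ← hyb, e2]
      exact h.injective e3
  have hd0 : HasDerivAt u 0 0 := by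
    have := hana.differentiableAt.hasDerivAt
    rwa [hder] at this
  have hsmall : ∀ᶠ z : ℂ in 𝓝 0, ‖u z‖ ≤ 1 / 2 * ‖z‖ := by
    have h1 := hd0.isLittleO
    have h2 := h1.def (show (0 : ℝ) < 1 / 2 by norm_num)
    filter_upwards [h2] with z hz
    simpa [hu0] using hz
  obtain ⟨r, hr, hball⟩ := Metric.eventually_nhds_iff_ball.1 (hsmall.and hfin)
  set ρ : ℝ := r / 2 with hρ
  have hρpos : 0 < ρ := by positivity
  set D' : Set S := ((↑) : ℂ → S) '' (ball 0 ρ) with hD'
  have hD'o : IsOpen D' := isOpenEmbedding_coe.isOpenMap _ isOpen_ball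
  set C' : Set S := ((↑) : ℂ → S) '' (closedBall 0 ρ) with hC'
  have hC'c : IsClosed C' :=
    ((isCompact_closedBall (0 : ℂ) ρ).image continuous_coe).isClosed
  have hcl : closure D' ⊆ C' := closure_minimal (Set.image_mono ball_subset_closedBall) hC'c
  refine ⟨h ⁻¹' D', hD'o.preimage h.continuous, ?_, ?_, ?_⟩
  · show h c ∈ D'
    rw [h3]; exact ⟨0, mem_ball_self hρpos, rfl⟩
  · intro x hx
    rw [← h.preimage_closure] at hx
    obtain ⟨z, hz, hzx⟩ := hcl hx
    show h (F x) ∈ D'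
    have e1 : h (F x) = G (z : S) := by
      show _ = h (F (h.symm (z : S)))
      rw [hzx, h.symm_apply_apply]
    rw [e1]
    have hz' : z ∈ ball (0 : ℂ) r := by
      rw [mem_closedBall] at hz; rw [mem_ball]; linarith
    obtain ⟨h6, h7⟩ := hball z hz'
    refine ⟨u z, ?_, coe_toC h7⟩
    rw [mem_ball, dist_zero_right]
    rw [mem_closedBall, dist_zero_right] at hz
    linarith
  · intro hcon
    have : h.symm ∞ ∈ closure (h ⁻¹' D') := by rw [hcon]; trivial
    rw [← h.preimage_closure] at this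
    have h8 : h (h.symm ∞) ∈ closure D' := this
    rw [h.apply_symm_apply] at h8
    obtain ⟨z, -, hz⟩ := hcl h8
    exact coe_ne_infty _ hz

end Pool.Agent.H76.Fatou
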