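import Mathlib
import Pool.Agent.H76.Fatou.Super

set_option autoImplicit false

open Filter Topology OnePoint Metric
open Pool.Agent.H44.Fatou

namespace Pool.Agent.H76.Fatou

/-- the small Moebius maps: translations of `z` and of `1/z` -/
noncomputable def T (i : Bool) (t : ℂ) : S → S := if i then mob 1 0 t 1 else mob 1 t 0 1

theorem T_false (t : ℂ) : T false t = mob 1 t 0 1 := rfl
theorem T_true (t : ℂ) : T true t = mob 1 0 t 1 := rfl

theorem T_false_coe (t z : ℂ) : T false t (z : S) = ((z + t : ℂ) : S) := by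
  rw [T_false, mob_coe, one_mul, zero_mul, zero_add, pt_one]

theorem T_false_infty (t : ℂ) : T false t (∞ : S) = ∞ := by
  show pt 1 0 = _
  rw [pt_zero]

theorem hdI : (0 : ℂ) * 0 - 1 * 1 ≠ 0 := by norm_num

/-- the inversion -/
noncomputable def I : S ≃ₜ S := mobH hdI

theorem I_apply (x : S) : I x = mob 0 1 1 0 x := rfl

theorem I_I (x : S) : I (I x) = x := by
  rw [I_apply, I_apply, mob_mob hdI]
  obtain ⟨v, hv, rfl⟩ := exists_pt x
  rw [mob_pt hv]
  congr 1 <;> ring

theorem T_true_eq (t : ℂ) (x : S) : T true t x = I (T false t (I x)) := by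
  rw [I_apply, I_apply, T_false, mob_mob hdI, mob_mob (by ring_nf; norm_num), T_true]
  congr 1 <;> ring

theorem T_zero (i : Bool) (x : S) : T i 0 x = x := by
  have h0 : ∀ y : S, T false 0 y = y := by
    intro y
    induction y using OnePoint.rec with
    | infty => exact T_false_infty 0
    | coe z => rw [T_false_coe, add_zero]
  cases i with
  | false => exact h0 x
  | true => rw [T_true_eq, h0, I_I]

theorem T_T (i : Bool) (s t : ℂ) (x : S) : T i s (T i t x) = T i (s + t) x := by
  have h0 : ∀ y : S, T false s (T false t y) = T false (s + t) y := by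
    intro y
    induction y using OnePoint.rec with
    | infty => rw [T_false_infty, T_false_infty, T_false_infty]
    | coe z => rw [T_false_coe, T_false_coe, T_false_coe]; congr 1; ring
  cases i with
  | false => exact h0 x
  | true => rw [T_true_eq, T_true_eq, I_I, h0, T_true_eq]

theorem T_neg (i : Bool) (t : ℂ) (x : S) : T i t (T i (-t) x) = x := by
  rw [T_T, add_neg_cancel, T_zero]

theorem lift_T (i : Bool) (t : ℂ) : Lift (T i t) := by
  cases i with
  | false => exact lift_mob (by norm_num)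
  | true => exact lift_mob (by norm_num)

theorem T_injective (i : Bool) (t : ℂ) : Function.Injective (T i t) := by
  intro x y hxy
  have := congrArg (T i (-t)) hxy
  rwa [T_T, T_T, neg_add_cancel, T_zero, T_zero] at this

/-- the points reachable from `y` with a kick of size less than `η` -/
def NS (η : ℝ) (y : S) : Set S := {x | ∃ i : Bool, ∃ t : ℂ, ‖t‖ < η ∧ T i t y = x}

theorem mem_NS_self {η : ℝ} (hη : 0 < η) (y : S) : y ∈ NS η y :=
  ⟨false, 0, by simpa using hη, T_zero _ _⟩

theorem NSf_open {η : ℝ} {y : S} (hy : y ≠ ∞) :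
    IsOpen {x | ∃ t : ℂ, ‖t‖ < η ∧ T false t y = x} := by
  induction y using OnePoint.rec with
  | infty => exact absurd rfl hy
  | coe z =>
    have : {x : S | ∃ t : ℂ, ‖t‖ < η ∧ T false t (z : S) = x} = ((↑) : ℂ → S) '' ball z η := by
      ext x
      constructor
      · rintro ⟨t, ht, rfl⟩
        rw [T_false_coe]
        exact ⟨z + t, by rw [mem_ball, dist_eq_norm]; simpa using ht, rfl⟩
      · rintro ⟨w, hw, rfl⟩
        rw [mem_ball, dist_eq_norm] at hw
        exact ⟨w - z, hw, by rw [T_false_coe]; congr 1; ring⟩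
    rw [this]
    exact isOpenEmbedding_coe.isOpenMap _ isOpen_ball

theorem NSt_open {η : ℝ} {y : S} (hy : I y ≠ ∞) :
    IsOpen {x | ∃ t : ℂ, ‖t‖ < η ∧ T true t y = x} := by
  have : {x : S | ∃ t : ℂ, ‖t‖ < η ∧ T true t y = x}
      = I ⁻¹' {x | ∃ t : ℂ, ‖t‖ < η ∧ T false t (I y) = x} := by
    ext x
    constructor
    · rintro ⟨t, ht, rfl⟩
      exact ⟨t, ht, by rw [T_true_eq, I_I]⟩
    · rintro ⟨t, ht, h⟩
      exact ⟨t, ht, by rw [T_true_eq, h, I_I]⟩
  rw [this]
  exact (NSf_open hy).preimage I.continuous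

theorem NS_open {η : ℝ} (y : S) : IsOpen (NS η y) := by
  have hU : NS η y = {x | ∃ t : ℂ, ‖t‖ < η ∧ T false t y = x} ∪
      {x | ∃ t : ℂ, ‖t‖ < η ∧ T true t y = x} := by
    ext x
    constructor
    · rintro ⟨i, t, ht, h⟩
      cases i with
      | false => exact Or.inl ⟨t, ht, h⟩
      | true => exact Or.inr ⟨t, ht, h⟩
    · rintro (⟨t, ht, h⟩ | ⟨t, ht, h⟩)
      · exact ⟨false, t, ht, h⟩
      · exact ⟨true, t, ht, h⟩
  rw [hU]
  by_cases h1 : y = ∞
  · -- at infinity only the second family matters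
    have h2 : I y ≠ ∞ := by
      rw [h1, I_apply]
      show pt 0 1 ≠ ∞
      rw [pt_one]; exact coe_ne_infty _
    have h3 : {x : S | ∃ t : ℂ, ‖t‖ < η ∧ T false t y = x} ⊆
        {x | ∃ t : ℂ, ‖t‖ < η ∧ T true t y = x} := by
      rintro x ⟨t, ht, h⟩
      refine ⟨0, by rw [norm_zero]; exact (norm_nonneg t).trans_lt ht, ?_⟩
      rw [T_zero, ← h, h1, T_false_infty]
    rw [Set.union_eq_self_of_subset_left h3]
    exact NSt_open h2
  · by_cases h2 : I y = ∞
    · have h3 : {x : S | ∃ t : ℂ, ‖t‖ < η ∧ T true t y = x} ⊆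
          {x | ∃ t : ℂ, ‖t‖ < η ∧ T false t y = x} := by
        rintro x ⟨t, ht, h⟩
        refine ⟨0, by rw [norm_zero]; exact (norm_nonneg t).trans_lt ht, ?_⟩
        rw [T_zero, ← h, T_true_eq, h2, T_false_infty, ← h2, I_I]
      rw [Set.union_eq_self_of_subset_right h3]
      exact NSf_open h1
    · exact (NSf_open h1).union (NSt_open h2)

theorem T_jointly (i : Bool) (t0 : ℂ) (x0 : S) :
    ContinuousAt (fun a : ℂ × S => T i a.1 a.2) (t0, x0) := by
  cases i with
  | false =>
    apply continuousAt_of_lift (Φ := T false) (p := fun t v => 1 * v.1 + t * v.2)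
      (q := fun _ v => 0 * v.1 + 1 * v.2)
    · fun_prop
    · fun_prop
    · intro v hv
      exact det_ne (by norm_num) hv
    · intro t v hv
      rw [T_false, mob_pt hv]
  | true =>
    apply continuousAt_of_lift (Φ := T true) (p := fun _ v => 1 * v.1 + 0 * v.2)
      (q := fun t v => t * v.1 + 1 * v.2)
    · fun_prop
    · fun_prop
    · intro v hv
      exact det_ne (by norm_num) hv
    · intro t v hv
      rw [T_true, mob_pt hv]

/-- robustness: small kicks keep a compact set inside an open set -/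
theorem robust {K O : Set S} (hK : IsCompact K) (hO : IsOpen O) (hKO : K ⊆ O) :
    ∃ η : ℝ, 0 < η ∧ ∀ i : Bool, ∀ t : ℂ, ‖t‖ < η → ∀ x ∈ K, T i t x ∈ O := by
  have key : ∀ i : Bool, ∃ η : ℝ, 0 < η ∧ ∀ t : ℂ, ‖t‖ < η → ∀ x ∈ K, T i t x ∈ O := by
    intro i
    have h1 : ∀ᶠ t : ℂ in 𝓝 0, ∀ x ∈ K, T i t x ∈ O := by
      apply hK.eventually_forall_of_forall_eventually
      intro x hx
      apply (T_jointly i 0 x).eventually_mem
      rw [T_zero]
      exact hO.mem_nhds (hKO hx)
    obtain ⟨η, hη, h2⟩ := Metric.eventually_nhds_iff.1 h1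
    exact ⟨η, hη, fun t ht => h2 (by rwa [dist_zero_right])⟩
  obtain ⟨η1, h1, h1'⟩ := key false
  obtain ⟨η2, h2, h2'⟩ := key true
  refine ⟨min η1 η2, lt_min h1 h2, ?_⟩
  intro i t ht x hx
  cases i with
  | false => exact h1' t (ht.trans_le (min_le_left _ _)) x hx
  | true => exact h2' t (ht.trans_le (min_le_right _ _)) x hx

end Pool.Agent.H76.Fatou
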