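import Mathlib
import Pool.Agent.H76.Fatou.Noise
import Pool.Agent.H76.Fatou.Comb

set_option autoImplicit false

open Filter Topology OnePoint Metric
open Pool.Agent.H44.Fatou

namespace Pool.Agent.H76.Fatou

/-- finitely many critical values -/
def FinCV (F : S → S) : Prop := Set.Finite {y | ∃ x, ¬ LocInj F x ∧ F x = y}

theorem FinCV.comp {F G : S → S} (hG : FinCV G) (hF : FinCV F) (hFc : Continuous F) :
    FinCV (G ∘ F) := by
  apply (hG.union (hF.image G)).subset
  rintro y ⟨x, hx, rfl⟩
  by_cases h : LocInj F x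
  · left
    exact ⟨F x, fun h2 => hx (h.comp hFc h2), rfl⟩
  · right
    exact ⟨F x, ⟨x, h, rfl⟩, rfl⟩

theorem finCV_of_injective {F : S → S} (hF : Function.Injective F) : FinCV F := by
  unfold FinCV
  convert Set.finite_empty
  rw [Set.eq_empty_iff_forall_notMem]
  rintro y ⟨x, hx, -⟩
  exact hx ⟨Set.univ, univ_mem, hF.injOn⟩

/-- a rational map with finitely many critical values -/
def Good (F : S → S) : Prop := Lift F ∧ FinCV F

theorem Good.comp {F G : S → S} (hG : Good G) (hF : Good F) : Good (G ∘ F) :=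
  ⟨hG.1.comp hF.1, hG.2.comp hF.2 hF.1.continuous⟩

theorem good_T (i : Bool) (t : ℂ) : Good (T i t) := ⟨lift_T i t, finCV_of_injective (T_injective i t)⟩

theorem good_id : Good (fun x : S => x) := ⟨Lift.id, finCV_of_injective Function.injective_id⟩

/-- one kicked step -/
noncomputable def kstep (F : S → S) (b : Bool × ℂ) : S → S := T b.1 b.2 ∘ F

/-- apply a word of kicks -/
noncomputable def kword (F : S → S) (l : List (Bool × ℂ)) : S → S :=
  fun x => l.foldl (fun y b => kstep F b y) x

theorem kword_nil (F : S → S) : kword F [] = fun x => x := rfl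

theorem kword_cons (F : S → S) (b : Bool × ℂ) (l : List (Bool × ℂ)) :
    kword F (b :: l) = kword F l ∘ kstep F b := rfl

theorem kword_append (F : S → S) (l l' : List (Bool × ℂ)) (x : S) :
    kword F (l ++ l') x = kword F l' (kword F l x) := by
  unfold kword; rw [List.foldl_append]

theorem good_kstep {F : S → S} (hF : Good F) (b : Bool × ℂ) : Good (kstep F b) :=
  (good_T _ _).comp hF

theorem good_kword {F : S → S} (hF : Good F) (l : List (Bool × ℂ)) : Good (kword F l) := by
  induction l with
  | nil => exact good_id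
  | cons b l ih => rw [kword_cons]; exact ih.comp (good_kstep hF b)

/-- admissible words -/
def Adm (η : ℝ) (l : List (Bool × ℂ)) : Prop := ∀ b ∈ l, ‖b.2‖ < η

theorem kword_mem {F : S → S} {η : ℝ} {W : Set S}
    (hW : ∀ b : Bool × ℂ, ‖b.2‖ < η → ∀ x ∈ W, kstep F b x ∈ W) {l : List (Bool × ℂ)}
    (hl : Adm η l) {x : S} (hx : x ∈ W) : kword F l x ∈ W := by
  induction l generalizing x with
  | nil => exact hx
  | cons b l ih =>
    rw [kword_cons]
    exact ih (fun b' hb' => hl b' (List.mem_cons_of_mem _ hb')) (hW b (hl b List.mem_cons_self) x hx)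

/-- The capturing theorem: if `F` has a robust trapping region, then cyclic words of kicks can be
chosen such that all critical points of the composition are attracted to attracting cycles. -/
theorem capture {F : S → S} (hF : Good F) {η : ℝ} (hη : 0 < η) {D : Set S} (hD : IsOpen D)
    (hDne : D.Nonempty) (hDcl : closure D ≠ Set.univ)
    (htrap : ∀ b : Bool × ℂ, ‖b.2‖ < η → ∀ x ∈ closure D, kstep F b x ∈ D) :
    ∃ T0 : ℕ, 0 < T0 ∧ ∃ k0 : ℕ, ∀ k, k0 ≤ k → ∃ l : List (Bool × ℂ),
      l.length = T0 * (k + 1) ∧ Adm η l ∧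
      ∀ x, ¬ LocInj (kword F l) x → Attr (kword F l) x := by
  classical
  set Y : Set S := {x | ∀ l : List (Bool × ℂ), Adm η l → kword F l x ∉ D} with hY
  have hYc : IsClosed Y := by
    have : Y = ⋂ l : List (Bool × ℂ), ⋂ _ : Adm η l, (kword F l) ⁻¹' Dᶜ := by
      ext x; simp [hY]
    rw [this]
    apply isClosed_iInter; intro l; apply isClosed_iInter; intro _
    exact (isClosed_compl_iff.2 hD).preimage (good_kword hF l).1.continuous
  have hYstep : ∀ x ∈ Y, ∀ b : Bool × ℂ, ‖b.2‖ < η → kstep F b x ∈ Y := by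
    intro x hx b hb l hl
    have h1 : Adm η (b :: l) := by
      intro b' hb'
      rcases List.mem_cons.1 hb' with h | h
      · rw [h]; exact hb
      · exact hl b' h
    exact hx (b :: l) h1
  have hYint : ∀ x ∈ Y, ∀ b : Bool × ℂ, ‖b.2‖ < η → kstep F b x ∈ interior Y := by
    intro x hx b hb
    rw [mem_interior]
    refine ⟨NS η (F x), ?_, NS_open _, ⟨b.1, b.2, hb, rfl⟩⟩
    rintro y ⟨i, t, ht, rfl⟩
    exact hYstep x hx (i, t) ht
  have hYne : Y ≠ Set.univ := by
    obtain ⟨d, hd⟩ := hDne
    intro hcon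
    have : d ∈ Y := by rw [hcon]; trivial
    exact this [] (by intro b hb; simp at hb) hd
  set W : Set S := D ∪ interior Y with hW
  have hWo : IsOpen W := hD.union isOpen_interior
  have hWstep : ∀ b : Bool × ℂ, ‖b.2‖ < η → ∀ x ∈ W, kstep F b x ∈ W := by
    intro b hb x hx
    rcases hx with hx | hx
    · exact Or.inl (htrap b hb x (subset_closure hx))
    · exact Or.inr (hYint x (interior_subset hx) b hb)
  -- finitely many words suffice
  have hcover : ∀ x : S, ∃ l : List (Bool × ℂ), Adm η l ∧ kword F l x ∈ W := by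
    intro x
    by_cases hx : x ∈ Y
    · refine ⟨[(false, 0)], ?_, ?_⟩
      · intro b hb
        rw [List.mem_singleton] at hb
        rw [hb]; simpa using hη
      · exact Or.inr (hYint x hx (false, 0) (by simpa using hη))
    · have : ∃ l : List (Bool × ℂ), Adm η l ∧ kword F l x ∈ D := by
        by_contra hcon
        push Not at hcon
        exact hx hcon
      obtain ⟨l, hl, h⟩ := this
      exact ⟨l, hl, Or.inl h⟩
  obtain ⟨fs, hfs⟩ := isCompact_univ.elim_finite_subcover
    (fun l : {l : List (Bool × ℂ) // Adm η l} => (kword F l.1) ⁻¹' W)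
    (fun l => hWo.preimage (good_kword hF l.1).1.continuous)
    (by
      intro x _
      obtain ⟨l, hl, h⟩ := hcover x
      exact Set.mem_iUnion.2 ⟨⟨l, hl⟩, h⟩)
  set T0 : ℕ := fs.sup (fun l => l.1.length) + 1 with hT0
  -- pad the words
  set pad : List (Bool × ℂ) → List (Bool × ℂ) := fun l =>
    l ++ List.replicate (T0 - l.length) (false, 0) with hpad
  have hpadAdm : ∀ l, Adm η l → Adm η (pad l) := by
    intro l hl b hb
    rw [hpad, List.mem_append] at hb
    rcases hb with hb | hb
    · exact hl b hb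
    · rw [List.eq_of_mem_replicate hb]; simpa using hη
  set LL : Finset (List (Bool × ℂ)) := fs.image (fun l => pad l.1) with hLL
  have hLLlen : ∀ l ∈ LL, l.length = T0 := by
    intro l hl
    rw [hLL, Finset.mem_image] at hl
    obtain ⟨l', hl', rfl⟩ := hl
    have h1 : l'.1.length ≤ fs.sup (fun l => l.1.length) := Finset.le_sup (f := fun l => l.1.length) hl'
    rw [hpad]
    simp only [List.length_append, List.length_replicate]
    omega
  have hLLadm : ∀ l ∈ LL, Adm η l := by
    intro l hl
    rw [hLL, Finset.mem_image] at hl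
    obtain ⟨l', hl', rfl⟩ := hl
    exact hpadAdm _ l'.2
  have hLLcap : ∀ x : S, ∃ l ∈ LL, kword F l x ∈ W := by
    intro x
    obtain ⟨l, hl, hx⟩ : ∃ l ∈ fs, x ∈ (kword F l.1) ⁻¹' W := by
      have := hfs (Set.mem_univ x)
      simpa using this
    refine ⟨pad l.1, Finset.mem_image_of_mem _ hl, ?_⟩
    rw [hpad, kword_append]
    apply kword_mem hWstep _ hx
    intro b hb
    rw [List.eq_of_mem_replicate hb]; simpa using hη
  -- the alphabet
  let Λ := {l : List (Bool × ℂ) // l ∈ LL}
  obtain ⟨l0, hl0, -⟩ := hLLcap ∞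
  let _ : Inhabited Λ := ⟨⟨l0, hl0⟩⟩
  let g : Λ → S → S := fun a => kword F a.1
  have hgood : ∀ a, Good (g a) := fun a => good_kword hF a.1
  let V : Λ → Finset S := fun a => (hgood a).2.toFinset
  have hgW : ∀ a : Λ, ∀ x ∈ W, g a x ∈ W := fun a x hx => kword_mem hWstep (hLLadm a.1 a.2) hx
  have hgcap : ∀ x, ∃ a : Λ, g a x ∈ W := by
    intro x
    obtain ⟨l, hl, h⟩ := hLLcap x
    exact ⟨⟨l, hl⟩, h⟩
  obtain ⟨k0, hk0⟩ := comb hgW hgcap V
  refine ⟨T0, Nat.succ_pos _, k0, fun k hk => ?_⟩
  obtain ⟨ω, hper, hω⟩ := hk0 k hk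
  -- the concatenated word
  have hword : ∀ s n : ℕ, ∃ l : List (Bool × ℂ), l.length = T0 * n ∧ Adm η l ∧
      kword F l = run g ω s n := by
    intro s n
    induction n with
    | zero => exact ⟨[], by simp, by intro b hb; simp at hb, rfl⟩
    | succ n ih =>
      obtain ⟨l, h1, h2, h3⟩ := ih
      refine ⟨l ++ (ω (s + n)).1, ?_, ?_, ?_⟩
      · rw [List.length_append, h1, hLLlen _ (ω (s + n)).2]; ring
      · intro b hb
        rcases List.mem_append.1 hb with h | h
        · exact h2 b h
        · exact hLLadm _ (ω (s + n)).2 b h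
      · funext x
        rw [kword_append, h3]
        rfl
  obtain ⟨l, hl1, hl2, hl3⟩ := hword 0 (k + 1)
  refine ⟨l, hl1, hl2, ?_⟩
  rw [hl3]
  have hrunc : ∀ s n, Continuous (run g ω s n) := by
    intro s n
    obtain ⟨l', -, -, h⟩ := hword s n
    rw [← h]; exact (good_kword hF l').1.continuous
  have hrunl : ∀ s n, Lift (run g ω s n) := by
    intro s n
    obtain ⟨l', -, -, h⟩ := hword s n
    rw [← h]; exact (good_kword hF l').1
  -- critical points of the composition
  have hcrit : ∀ n x, ¬ LocInj (run g ω 0 n) x →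
      ∃ j, j < n ∧ ¬ LocInj (g (ω j)) (run g ω 0 j x) := by
    intro n
    induction n with
    | zero =>
      intro x hx
      exact absurd ⟨Set.univ, univ_mem, fun a _ b _ h => h⟩ hx
    | succ n ih =>
      intro x hx
      by_cases h1 : LocInj (run g ω 0 n) x
      · refine ⟨n, Nat.lt_succ_self n, fun h2 => hx ?_⟩
        have h3 := h1.comp (hrunc 0 n) h2
        have h4 : (g (ω n) ∘ run g ω 0 n) = run g ω 0 (n + 1) := by
          funext y
          show g (ω n) (run g ω 0 n y) = g (ω (0 + n)) (run g ω 0 n y)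
          rw [Nat.zero_add]
        rwa [h4] at h3
      · obtain ⟨j, hj, h2⟩ := ih x h1
        exact ⟨j, by omega, h2⟩
  intro x hx
  obtain ⟨j, hj, hjc⟩ := hcrit _ x hx
  set v := run g ω 0 (j + 1) x with hv
  have hvV : v ∈ V (ω j) := by
    have hmem : v ∈ {y | ∃ x, ¬ LocInj (g (ω j)) x ∧ g (ω j) x = y} := by
      refine ⟨run g ω 0 j x, hjc, ?_⟩
      show _ = g (ω (0 + j)) (run g ω 0 j x)
      rw [Nat.zero_add]
    exact (Set.Finite.mem_toFinset (hgood (ω j)).2).2 hmem
  have hvW := hω j v hvV
  have h1 : run g ω (j + 1) k v = run g ω 0 (j + 1 + k) x := by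
    rw [run_add, Nat.zero_add]
  rw [h1] at hvW
  set G := run g ω 0 (k + 1) with hG
  have hGG : G (G x) = run g ω 0 ((k + 1) + (k + 1)) x := by
    rw [run_add, Nat.zero_add, hG]
    rw [← Nat.zero_add (k + 1), ← run_shift g ω (k + 1) 0]
    rw [Nat.zero_add]
    apply run_congr
    intro i _
    exact (hper _).symm
  have hGW : G (G x) ∈ W := by
    rw [hGG]
    have h2 : (k + 1) + (k + 1) = (j + 1 + k) + (k + 1 - j) := by omega
    rw [h2, run_add]
    exact run_mem hgW _ _ _ hvW
  -- forward invariance of the two trapping regions under the whole period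
  have hrunW : ∀ K : Set S, (∀ b : Bool × ℂ, ‖b.2‖ < η → ∀ x ∈ K, kstep F b x ∈ interior K) →
      ∀ y ∈ K, G y ∈ interior K := by
    intro K hK y hy
    obtain ⟨l', h3, h4, h5⟩ := hword 0 (k + 1)
    rw [hG, ← h5]
    have h6 : l' ≠ [] := by
      intro h7
      rw [h7, List.length_nil] at h3
      have : 0 < T0 * (k + 1) := Nat.mul_pos (Nat.succ_pos _) (Nat.succ_pos _)
      omega
    obtain ⟨b, l'', rfl⟩ := List.exists_cons_of_ne_nil h6
    rw [kword_cons]
    have h8 : kstep F b y ∈ interior K := hK b (h4 b List.mem_cons_self) y hy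
    exact kword_mem (W := interior K) (η := η) (fun b' hb' z hz => hK b' hb' z (interior_subset hz))
      (fun b' hb' => h4 b' (List.mem_cons_of_mem _ hb')) h8
  rcases hGW with hD1 | hY1
  · have hstepD : ∀ b : Bool × ℂ, ‖b.2‖ < η → ∀ y ∈ closure D, kstep F b y ∈ interior (closure D) := by
      intro b hb y hy
      exact interior_mono subset_closure (by rw [hD.interior_eq]; exact htrap b hb y hy)
    exact trapping (hrunl 0 (k + 1)) (K := closure D) (s := 2) isClosed_closure hDcl
      (hrunW _ hstepD) (subset_closure hD1)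
  · exact trapping (hrunl 0 (k + 1)) (K := Y) (s := 2) hYc hYne
      (hrunW Y (fun b hb y hy => hYint y hy b hb)) (interior_subset hY1)

end Pool.Agent.H76.Fatou
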